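import Mathlib
import Pool.Agent.Helper54.SAW.Defs

set_option autoImplicit false

/-!
# Decomposition of a walk at its cut times in a window
-/

namespace Pool.Agent.Helper70.SAW

open Pool.Agent.Helper54.SAW Finset

theorem X_nil : X [] = 0 := rfl

theorem X_append (u v : List St) : X (u ++ v) = X u + X v := by
  simp [X]

theorem Y_append (u v : List St) : Y (u ++ v) = Y u + Y v := by
  simp [Y]

theorem leftOK_nil : LeftOK [] := by
  intro u v h
  have := List.append_eq_nil_iff.mp h.symm
  rw [this.2, X_nil]

theorem rightOK_nil : RightOK [] := by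
  intro u v h hu
  have := List.append_eq_nil_iff.mp h.symm
  exact absurd this.1 hu

theorem leftOK_right {u v : List St} (h : LeftOK (u ++ v)) : LeftOK v := by
  intro a b hab
  exact h (u ++ a) b (by rw [hab, List.append_assoc])

theorem rightOK_left {u v : List St} (h : RightOK (u ++ v)) : RightOK u := by
  intro a b hab ha
  exact h a (b ++ v) (by rw [hab, List.append_assoc]) ha

theorem leftOK_nonneg {u : List St} (h : LeftOK u) : 0 ≤ X u := h [] u rfl

theorem rightOK_pos {u : List St} (h : RightOK u) (hu : u ≠ []) : 0 < X u :=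
  h u [] (by simp) hu

theorem rightOK_nonneg {u : List St} (h : RightOK u) : 0 ≤ X u := by
  by_cases hu : u = []
  · rw [hu, X_nil]
  · exact (rightOK_pos h hu).le

theorem leftOK_append {u v : List St} (hu : LeftOK u) (hv : LeftOK v) : LeftOK (u ++ v) := by
  intro a b hab
  rcases List.append_eq_append_iff.mp hab with ⟨c, h1, h2⟩ | ⟨c, h1, h2⟩
  · exact hv c b h2
  · rw [h2, X_append]
    have := hu a c h1
    have := leftOK_nonneg hv
    omega

theorem rightOK_append {u v : List St} (hu : RightOK u) (hv : RightOK v) : RightOK (u ++ v) := by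
  intro a b hab ha
  rcases List.append_eq_append_iff.mp hab with ⟨c, h1, h2⟩ | ⟨c, h1, h2⟩
  · rw [h1, X_append]
    have h3 := rightOK_nonneg hu
    by_cases hc : c = []
    · subst hc
      rw [List.append_nil] at h1
      rw [X_nil]
      have := rightOK_pos hu (by rwa [← h1])
      omega
    · have := hv c b h2 hc
      omega
  · exact hu a c h1 ha

theorem saw_left {u v : List St} (h : Saw (u ++ v)) : Saw u := by
  intro a b c habc hb
  exact h a b (c ++ v) (by rw [habc]; simp) hb

theorem saw_right {u v : List St} (h : Saw (u ++ v)) : Saw v := by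
  intro a b c habc hb
  exact h (u ++ a) b c (by rw [habc]; simp) hb

theorem saw_append' {u v : List St} (hu : Saw u) (hv : Saw v) (h1 : LeftOK u) (h2 : RightOK v) :
    Saw (u ++ v) := by
  intro a b c habc hb
  rw [List.append_assoc] at habc
  rcases List.append_eq_append_iff.mp habc with ⟨d, h3, h4⟩ | ⟨d, h3, h4⟩
  · -- a = u ++ d, v = d ++ (b ++ c)
    exact hv d b c (by rw [h4, List.append_assoc]) hb
  · -- u = a ++ d, b ++ c = d ++ v
    rcases List.append_eq_append_iff.mp h4 with ⟨e, h5, h6⟩ | ⟨e, h5, h6⟩
    · -- d = b ++ e, c = e ++ v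
      exact hu a b e (by rw [h3, h5, List.append_assoc]) hb
    · -- b = d ++ e, v = e ++ c
      by_cases he : e = []
      · subst he
        rw [List.append_nil] at h5
        exact hu a b [] (by rw [h3, h5]; simp) hb
      · rintro ⟨hX, -⟩
        rw [h5, X_append] at hX
        have h7 := h1 a d h3
        have h8 := h2 e c h6 he
        omega

theorem leftOK_flatten {P : List (List St)} (h : ∀ p ∈ P, Piece p) : LeftOK P.flatten := by
  induction P with
  | nil => exact leftOK_nil
  | cons p P ih =>
    rw [List.flatten_cons]
    exact leftOK_append (h p (by simp)).2.1 (ih fun q hq => h q (by simp [hq]))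

theorem rightOK_flatten {P : List (List St)} (h : ∀ p ∈ P, Piece p) : RightOK P.flatten := by
  induction P with
  | nil => exact rightOK_nil
  | cons p P ih =>
    rw [List.flatten_cons]
    exact rightOK_append (h p (by simp)).2.2.1 (ih fun q hq => h q (by simp [hq]))

theorem saw_nil : Saw [] := by
  intro a b c h hb
  have := List.append_eq_nil_iff.mp h.symm
  exact absurd (List.append_eq_nil_iff.mp this.1).2 hb

theorem saw_flatten {P : List (List St)} (h : ∀ p ∈ P, Piece p) : Saw P.flatten := by
  induction P with
  | nil => exact saw_nil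
  | cons p P ih =>
    have hP : ∀ q ∈ P, Piece q := fun q hq => h q (by simp [hq])
    have hp := h p (by simp)
    rw [List.flatten_cons]
    exact saw_append' hp.2.2.2.1 (ih hP) hp.2.1 (rightOK_flatten hP)

theorem dec_saw (r : ℕ) (α β : List St) (P : List (List St)) (h : Dec r α P β) :
    Saw (α ++ P.flatten ++ β) := by
  obtain ⟨h1, h2, h3, h4, h5, -⟩ := h
  refine saw_append' (saw_append' h2 (saw_flatten h5) h1 (rightOK_flatten h5)) h4
    (leftOK_append h1 (leftOK_flatten h5)) h3

/-- a self-avoiding bridge is a concatenation of irreducible ones -/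
theorem exists_pieces (n : ℕ) : ∀ p : List St, p.length ≤ n → LeftOK p → RightOK p → Saw p →
    ∃ P : List (List St), p = P.flatten ∧ ∀ q ∈ P, Piece q := by
  induction n with
  | zero =>
    intro p hp _ _ _
    refine ⟨[], ?_, by simp⟩
    simpa using hp
  | succ n ih =>
    intro p hp h1 h2 h3
    by_cases h0 : p = []
    · exact ⟨[], by simpa using h0, by simp⟩
    by_cases h4 : ∀ u v : List St, p = u ++ v → u ≠ [] → v ≠ [] → ¬ (LeftOK u ∧ RightOK v)
    · refine ⟨[p], by simp, ?_⟩
      intro q hq
      rw [List.mem_singleton] at hq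
      subst hq
      exact ⟨h0, h1, h2, h3, h4⟩
    · push Not at h4
      obtain ⟨u, v, huv, hu, hv, hL, hR⟩ := h4
      subst huv
      have hu' := List.length_pos_iff.mpr hu
      have hv' := List.length_pos_iff.mpr hv
      rw [List.length_append] at hp
      obtain ⟨P, hP, hP'⟩ := ih u (by omega) hL (rightOK_left h2) (saw_left h3)
      obtain ⟨Q, hQ, hQ'⟩ := ih v (by omega) (leftOK_right h1) hR (saw_right h3)
      refine ⟨P ++ Q, ?_, ?_⟩
      · rw [List.flatten_append, ← hP, ← hQ]
      · intro q hq
        rcases List.mem_append.mp hq with h | h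
        · exact hP' q h
        · exact hQ' q h

theorem pieces_unique : ∀ (P Q : List (List St)), (∀ p ∈ P, Piece p) → (∀ q ∈ Q, Piece q) →
    P.flatten = Q.flatten → P = Q := by
  intro P
  induction P with
  | nil =>
    intro Q _ hQ h
    cases Q with
    | nil => rfl
    | cons q Q =>
      rw [List.flatten_cons, List.flatten_nil] at h
      exact absurd (List.append_eq_nil_iff.mp h.symm).1 (hQ q (by simp)).1
  | cons p P ih =>
    intro Q hP hQ h
    cases Q with
    | nil =>
      rw [List.flatten_cons, List.flatten_nil] at h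
      exact absurd (List.append_eq_nil_iff.mp h).1 (hP p (by simp)).1
    | cons q Q =>
      have hP' : ∀ p ∈ P, Piece p := fun a ha => hP a (by simp [ha])
      have hQ' : ∀ q ∈ Q, Piece q := fun a ha => hQ a (by simp [ha])
      have hp := hP p (by simp)
      have hq := hQ q (by simp)
      rw [List.flatten_cons, List.flatten_cons] at h
      have key : p = q := by
        rcases List.append_eq_append_iff.mp h with ⟨c, h1, h2⟩ | ⟨c, h1, h2⟩
        · by_contra hne
          have hc : c ≠ [] := by
            rintro rfl
            rw [List.append_nil] at h1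
            exact hne h1.symm
          have hR : RightOK c := by
            have := rightOK_flatten hP'
            rw [h2] at this
            exact rightOK_left this
          exact hq.2.2.2.2 p c h1 hp.1 hc ⟨hp.2.1, hR⟩
        · by_contra hne
          have hc : c ≠ [] := by
            rintro rfl
            rw [List.append_nil] at h1
            exact hne h1
          have hR : RightOK c := by
            have := rightOK_flatten hQ'
            rw [h2] at this
            exact rightOK_left this
          exact hp.2.2.2.2 q c h1 hq.1 hc ⟨hq.2.1, hR⟩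
      subst key
      rw [ih Q hP' hQ' (List.append_cancel_left h)]

theorem dec_exists (r : ℕ) (l : List St) (hl : Saw l) (h : nFold r l ≠ 0) :
    ∃ (α : List St) (P : List (List St)) (β : List St), l = α ++ P.flatten ++ β ∧ Dec r α P β := by
  classical
  set W := (Finset.range (l.length + 1)).filter
    (fun t => Cut l t ∧ |2 * X (l.take t) - X l| ≤ r) with hW
  have hne : W.Nonempty := by
    unfold nFold at h
    obtain ⟨t, ht⟩ := Finset.card_pos.mp (Nat.pos_of_ne_zero h)
    rw [Finset.mem_filter] at ht
    exact ⟨t, Finset.mem_filter.mpr ⟨ht.1, ht.2.1, ht.2.2.2⟩⟩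
  have hmem : ∀ t, t ∈ W ↔ t ≤ l.length ∧ Cut l t ∧ |2 * X (l.take t) - X l| ≤ r := by
    intro t
    rw [hW, Finset.mem_filter, Finset.mem_range, Nat.lt_succ_iff]
  obtain ⟨h0l, h0c, h0w⟩ := (hmem _).mp (W.min'_mem hne)
  obtain ⟨h1l, h1c, h1w⟩ := (hmem _).mp (W.max'_mem hne)
  have h01 : W.min' hne ≤ W.max' hne := W.min'_le_max' hne
  have hmin : ∀ t ∈ W, W.min' hne ≤ t := fun t ht => W.min'_le t ht
  have hmax : ∀ t ∈ W, t ≤ W.max' hne := fun t ht => W.le_max' t ht
  generalize W.min' hne = t₀ at *
  generalize W.max' hne = t₁ at *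
  obtain ⟨h0L, h0R⟩ := h0c
  obtain ⟨h1L, h1R⟩ := h1c
  -- the three parts
  have hsplit1 : l.take t₁ = l.take t₀ ++ (l.take t₁).drop t₀ := by
    conv_lhs => rw [← List.take_append_drop t₀ (l.take t₁)]
    rw [List.take_take, min_eq_left h01]
  have hsplit : l = l.take t₀ ++ (l.take t₁).drop t₀ ++ l.drop t₁ := by
    rw [← hsplit1, List.take_append_drop]
  have hsplit2 : l.drop t₀ = (l.take t₁).drop t₀ ++ l.drop t₁ := by
    have h2 : l.take t₀ ++ l.drop t₀ = l.take t₀ ++ ((l.take t₁).drop t₀ ++ l.drop t₁) := by
      rw [List.take_append_drop, ← List.append_assoc, ← hsplit]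
    exact List.append_cancel_left h2
  have hmL : LeftOK ((l.take t₁).drop t₀) := by
    rw [hsplit1] at h1L
    exact leftOK_right h1L
  have hmR : RightOK ((l.take t₁).drop t₀) := by
    rw [hsplit2] at h0R
    exact rightOK_left h0R
  have hmS : Saw ((l.take t₁).drop t₀) := by
    rw [hsplit] at hl
    exact saw_right (saw_left hl)
  obtain ⟨P, hP, hP'⟩ := exists_pieces _ _ le_rfl hmL hmR hmS
  have hXl : X l = X (l.take t₀) + X P.flatten + X (l.drop t₁) := by
    conv_lhs => rw [hsplit]
    rw [X_append, X_append, hP]
  have hX1 : X (l.take t₁) = X (l.take t₀) + X P.flatten := by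
    rw [hsplit1, X_append, hP]
  refine ⟨l.take t₀, P, l.drop t₁, by rw [← hP]; exact hsplit, h0L, ?_, h1R, ?_, hP', ?_, ?_, ?_, ?_⟩
  · rw [hsplit] at hl
    exact saw_left (saw_left hl)
  · rw [hsplit] at hl
    exact saw_right hl
  · rw [← hXl]
    exact h0w
  · rw [← hXl, ← hX1]
    exact h1w
  · intro u v huv hv hu1 hv1 hw
    rw [← hXl] at hw
    have hlu : l = u ++ (v ++ l.drop t₀) := by
      rw [← List.append_assoc, ← huv, List.take_append_drop]
    have hlen : t₀ = u.length + v.length := by
      have := congrArg List.length huv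
      rw [List.length_append, List.length_take, min_eq_left h0l] at this
      exact this
    have htake : l.take u.length = u := by
      rw [hlu]; simp
    have hdrop : l.drop u.length = v ++ l.drop t₀ := by
      conv_lhs => rw [hlu]
      simp
    have hv' := List.length_pos_iff.mpr hv
    have hmm : u.length ∈ W := by
      rw [hmem]
      refine ⟨by omega, ⟨?_, ?_⟩, ?_⟩
      · rw [htake]; exact hu1
      · rw [hdrop]; exact rightOK_append hv1 h0R
      · rw [htake]; exact hw
    have := hmin _ hmm
    omega
  · intro u v huv hu hu1 hv1 hw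
    rw [← hXl, ← hX1] at hw
    have hlu : l = (l.take t₁ ++ u) ++ v := by
      rw [List.append_assoc, ← huv, List.take_append_drop]
    have hlen : (l.take t₁ ++ u).length = t₁ + u.length := by
      rw [List.length_append, List.length_take, min_eq_left h1l]
    have htake : l.take (t₁ + u.length) = l.take t₁ ++ u := by
      have : (l.take t₁ ++ u ++ v).take (t₁ + u.length) = l.take t₁ ++ u := List.take_left' hlen
      rwa [← hlu] at this
    have hdrop : l.drop (t₁ + u.length) = v := by
      have : (l.take t₁ ++ u ++ v).drop (t₁ + u.length) = v := List.drop_left' hlen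
      rwa [← hlu] at this
    have hu' := List.length_pos_iff.mpr hu
    have hle : t₁ + u.length ≤ l.length := by
      conv_rhs => rw [hlu, List.length_append, hlen]
      omega
    have hmm : t₁ + u.length ∈ W := by
      rw [hmem]
      refine ⟨hle, ⟨?_, ?_⟩, ?_⟩
      · rw [htake]; exact leftOK_append h1L hu1
      · rw [hdrop]; exact hv1
      · rw [htake, X_append]; exact hw
    have := hmax _ hmm
    omega

/-- auxiliary: the first part is determined -/
theorem dec_alpha {r : ℕ} {α α' β β' v : List St} {P P' : List (List St)} (h : Dec r α P β)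
    (h' : Dec r α' P' β') (hv : α' = α ++ v) (he : P.flatten ++ β = v ++ (P'.flatten ++ β')) :
    v = [] := by
  by_contra hne
  obtain ⟨h1, -, h3, -, h5, h6, -⟩ := h
  obtain ⟨-, -, -, -, -, -, -, h8, -⟩ := h'
  have hR : RightOK v := by
    have := rightOK_append (rightOK_flatten h5) h3
    rw [he] at this
    exact rightOK_left this
  apply h8 α v hv hne h1 hR
  have hX := congrArg X he
  rw [X_append, X_append, X_append] at hX
  have hX2 := congrArg X hv
  rw [X_append] at hX2
  have : X α' + X P'.flatten + X β' = X α + X P.flatten + X β := by omega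
  rw [this]
  exact h6

theorem dec_beta {r : ℕ} {α β β' v : List St} {P P' : List (List St)} (h : Dec r α P β)
    (h' : Dec r α P' β') (hv : P'.flatten = P.flatten ++ v) (he : β = v ++ β') :
    v = [] := by
  by_contra hne
  obtain ⟨-, -, -, -, -, -, -, -, h9⟩ := h
  obtain ⟨-, -, h3, -, h5, -, h7, -, -⟩ := h'
  have hL : LeftOK v := by
    have := leftOK_flatten h5
    rw [hv] at this
    exact leftOK_right this
  apply h9 v β' he hne hL h3
  have hX := congrArg X he
  rw [X_append] at hX
  have hX2 := congrArg X hv
  rw [X_append] at hX2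
  have e1 : X α + X P.flatten + X β = X α + X P'.flatten + X β' := by omega
  have e2 : X α + X P.flatten + X v = X α + X P'.flatten := by omega
  rw [e1, e2]
  exact h7

theorem dec_unique (r : ℕ) (α α' β β' : List St) (P P' : List (List St)) (h : Dec r α P β)
    (h' : Dec r α' P' β') (he : α ++ P.flatten ++ β = α' ++ P'.flatten ++ β') :
    α = α' ∧ P = P' ∧ β = β' := by
  have e1 : α = α' := by
    rw [List.append_assoc, List.append_assoc] at he
    rcases List.append_eq_append_iff.mp he with ⟨c, h1, h2⟩ | ⟨c, h1, h2⟩
    · have := dec_alpha h h' h1 h2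
      rw [h1, this, List.append_nil]
    · have := dec_alpha h' h h1 h2
      rw [h1, this, List.append_nil]
  subst e1
  rw [List.append_assoc, List.append_assoc] at he
  have he := List.append_cancel_left he
  have e2 : P.flatten = P'.flatten ∧ β = β' := by
    rcases List.append_eq_append_iff.mp he with ⟨c, h1, h2⟩ | ⟨c, h1, h2⟩
    · have := dec_beta h h' h1 h2
      subst this
      rw [List.append_nil] at h1
      exact ⟨h1.symm, h2⟩
    · have := dec_beta h' h h1 h2
      subst this
      rw [List.append_nil] at h1
      exact ⟨h1, h2.symm⟩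
  exact ⟨rfl, pieces_unique P P' h.2.2.2.2.1 h'.2.2.2.2.1 e2.1, e2.2⟩

end Pool.Agent.Helper70.SAW
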